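import Mathlib
import Pool.Agent.H139R3.MSMain

set_option autoImplicit false

/-!
# A compressible factor for an action of the free group of rank two
-/

namespace Pool.Agent.H139R3.CF

open Set MeasureTheory Pool.Agent.H139R3.MS

/-- The second factor: two copies of the Cantor set. -/
abbrev P := Bool × (ℕ → Bool)

/-- Put a digit in front of a sequence. -/
def cons (i : Bool) (y : ℕ → Bool) : ℕ → Bool := fun n => Nat.casesOn n i y

@[simp] theorem cons_zero (i : Bool) (y : ℕ → Bool) : cons i y 0 = i := rfl
@[simp] theorem cons_succ (i : Bool) (y : ℕ → Bool) (n : ℕ) : cons i y (n + 1) = y n := rfl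
@[simp] theorem cons_one (i : Bool) (y : ℕ → Bool) : cons i y 1 = y 0 := rfl

theorem cons_tl (y : ℕ → Bool) : cons (y 0) (fun n => y (n + 1)) = y := by
  funext n
  cases n <;> rfl

theorem tl_cons (i : Bool) (y : ℕ → Bool) : (fun n => cons i y (n + 1)) = y := rfl

/-- The involution. -/
def cf (p : P) : P := (!p.1, p.2)

/-- The map of order three. -/
def df (p : P) : P :=
  bif p.1 then (false, cons false p.2)
  else bif p.2 0 then (true, fun n => p.2 (n + 1))
  else (false, cons true (fun n => p.2 (n + 1)))

theorem df_B (y : ℕ → Bool) : df (true, y) = (false, cons false y) := rfl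

theorem df_A0 (y : ℕ → Bool) : df (false, cons false y) = (false, cons true y) := rfl

theorem df_A1 (y : ℕ → Bool) : df (false, cons true y) = (true, y) := rfl

theorem cf_cf (p : P) : cf (cf p) = p := by
  unfold cf
  simp

theorem cases3 (p : P) : (∃ y, p = (true, y)) ∨ (∃ y, p = (false, cons false y)) ∨
    ∃ y, p = (false, cons true y) := by
  obtain ⟨i, y⟩ := p
  cases i
  · right
    cases h : y 0
    · left
      exact ⟨fun n => y (n + 1), by rw [← h, cons_tl]⟩
    · right
      exact ⟨fun n => y (n + 1), by rw [← h, cons_tl]⟩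
  · exact Or.inl ⟨y, rfl⟩

theorem df3 (p : P) : df (df (df p)) = p := by
  rcases cases3 p with ⟨y, rfl⟩ | ⟨y, rfl⟩ | ⟨y, rfl⟩
  · rw [df_B, df_A0, df_A1]
  · rw [df_A0, df_A1, df_B]
  · rw [df_A1, df_B, df_A0]

theorem continuous_cf : Continuous cf := by
  unfold cf
  exact ((continuous_of_discreteTopology (f := fun q : Bool => !q)).comp
    continuous_fst).prodMk continuous_snd

theorem continuous_coord (n : ℕ) : Continuous (fun p : P => p.2 n) :=
  (continuous_apply n).comp continuous_snd

theorem continuous_df : Continuous df := by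
  have e : df = fun p : P => ((!p.1) && p.2 0, fun n => Nat.casesOn n
      (bif p.1 then false else bif p.2 0 then p.2 1 else true)
      (fun k => bif p.1 then p.2 k else bif p.2 0 then p.2 (k + 2) else p.2 (k + 1))) := by
    funext p
    rcases cases3 p with ⟨y, rfl⟩ | ⟨y, rfl⟩ | ⟨y, rfl⟩
    · rw [df_B]
      refine Prod.ext rfl ?_
      funext n
      cases n <;> rfl
    · rw [df_A0]
      refine Prod.ext rfl ?_
      funext n
      cases n <;> rfl
    · rw [df_A1]
      refine Prod.ext rfl ?_
      funext n
      cases n <;> rfl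
  rw [e]
  refine Continuous.prodMk ?_ (continuous_pi fun n => ?_)
  · exact (continuous_of_discreteTopology (f := fun q : Bool × Bool => (!q.1) && q.2)).comp
      (continuous_fst.prodMk (continuous_coord 0))
  · cases n with
    | zero =>
      exact (continuous_of_discreteTopology (f := fun q : Bool × Bool × Bool =>
        (bif q.1 then false else bif q.2.1 then q.2.2 else true))).comp
        (continuous_fst.prodMk ((continuous_coord 0).prodMk (continuous_coord 1)))
    | succ k =>
      exact (continuous_of_discreteTopology (f := fun q : Bool × Bool × Bool × Bool × Bool =>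
        (bif q.1 then q.2.1 else bif q.2.2.1 then q.2.2.2.1 else q.2.2.2.2))).comp
        (continuous_fst.prodMk ((continuous_coord k).prodMk ((continuous_coord 0).prodMk
          ((continuous_coord (k + 2)).prodMk (continuous_coord (k + 1))))))

/-- The involution as a homeomorphism. -/
def cP : P ≃ₜ P where
  toFun := cf
  invFun := cf
  left_inv := cf_cf
  right_inv := cf_cf
  continuous_toFun := continuous_cf
  continuous_invFun := continuous_cf

/-- The homeomorphism of order three. -/
def dP : P ≃ₜ P where
  toFun := df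
  invFun := fun p => df (df p)
  left_inv := df3
  right_inv := df3
  continuous_toFun := continuous_df
  continuous_invFun := continuous_df.comp continuous_df

theorem cP_sq : cP ^ 2 = 1 := by
  ext1 p
  rw [pow_two]
  exact cf_cf p

theorem dP_cube : dP ^ 3 = 1 := by
  ext1 p
  rw [pow_succ, pow_two]
  exact df3 p

abbrev F2 := FreeGroup (Fin 2)

/-- The action on the first factor. -/
def pi : F2 →* L := FreeGroup.lift ![a, b]

/-- The action on the second factor. -/
def rh : F2 →* (P ≃ₜ P) := FreeGroup.lift ![cP, dP]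

theorem pi_0 : pi (FreeGroup.of 0) = a := by simp [pi]
theorem pi_1 : pi (FreeGroup.of 1) = b := by simp [pi]
theorem rh_0 : rh (FreeGroup.of 0) = cP := by simp [rh]
theorem rh_1 : rh (FreeGroup.of 1) = dP := by simp [rh]

/-- The product action. -/
def act (g : F2) (w : X × P) : X × P := (sh (pi g) w.1, rh g w.2)

theorem act_mul (g h : F2) (w : X × P) : act (g * h) w = act g (act h w) := by
  unfold act
  rw [map_mul, map_mul, map_mul]
  rfl

theorem act_one (w : X × P) : act 1 w = w := by
  unfold act
  rw [map_one, map_one, map_one]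
  rfl

theorem continuous_act (g : F2) : Continuous (act g) := by
  unfold act
  exact ((sh (pi g)).continuous.comp continuous_fst).prodMk
    ((rh g).continuous.comp continuous_snd)

/-- The configurations on which the square of `b` acts trivially. -/
def X1 : Set X := {x | ∀ l m, x (l * b ^ 2 * m) = x (l * m)}

theorem sh_mem_X1 (l : L) {x : X} (hx : x ∈ X1) : sh l x ∈ X1 := by
  intro l' m
  rw [sh_apply, sh_apply]
  have := hx (l⁻¹ * l') m
  rw [← mul_assoc, ← mul_assoc, ← mul_assoc]
  exact this

theorem sh_b2 {x : X} (hx : x ∈ X1) : sh (b ^ 2) x = x := by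
  funext m
  rw [sh_apply]
  have := hx 1 ((b ^ 2)⁻¹ * m)
  rw [one_mul, one_mul, mul_inv_cancel_left] at this
  exact this.symm

theorem isClosed_X1 : IsClosed X1 := by
  unfold X1
  simp only [setOf_forall]
  exact isClosed_iInter fun l => isClosed_iInter fun m =>
    isClosed_eq (continuous_apply _) (continuous_apply _)

/-- The compact space. -/
def W : Set (X × P) := {w | w.1 ∈ X1}

theorem act_mem_W (g : F2) {w : X × P} (hw : w ∈ W) : act g w ∈ W := sh_mem_X1 _ hw

theorem isClosed_W : IsClosed W := isClosed_X1.preimage continuous_fst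

def gc : F2 := FreeGroup.of 0 ^ 3
def ga : F2 := FreeGroup.of 0 ^ 4
def gb : F2 := FreeGroup.of 1 ^ 3
def gd : F2 := FreeGroup.of 1 ^ 4

theorem rh_ga : rh ga = 1 := by
  rw [ga, map_pow, rh_0, show 4 = 2 * 2 from rfl, pow_mul, cP_sq, one_pow]

theorem rh_gb : rh gb = 1 := by
  rw [gb, map_pow, rh_1, dP_cube]

theorem pi_ga : pi ga = a := by
  rw [ga, map_pow, pi_0, pow_succ, a_cube, one_mul]

theorem pi_gb : pi gb = b ^ 3 := by
  rw [gb, map_pow, pi_1]

theorem act_gc {x : X} (p : P) : act gc (x, p) = (x, cf p) := by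
  unfold act
  have h1 : pi gc = 1 := by rw [gc, map_pow, pi_0, a_cube]
  have h2 : rh gc = cP := by rw [gc, map_pow, rh_0, pow_succ, cP_sq, one_mul]
  rw [h1, h2, map_one]
  rfl

theorem act_gd {x : X} (hx : x ∈ X1) (p : P) : act gd (x, p) = (x, df p) := by
  unfold act
  have h1 : pi gd = b ^ 2 * b ^ 2 := by rw [gd, map_pow, pi_1, ← pow_add]
  have h2 : rh gd = dP := by rw [gd, map_pow, rh_1, pow_succ, dP_cube, one_mul]
  rw [h1, h2, map_mul]
  refine Prod.ext ?_ rfl
  show sh (b ^ 2) (sh (b ^ 2) x) = x
  rw [sh_b2 hx, sh_b2 hx]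

/-- Every shift of the first factor is realised, uniformly, without moving the second factor. -/
theorem realise (l : L) : ∃ g : F2, rh g = 1 ∧ ∀ x ∈ X1, sh (pi g) x = sh l x := by
  let S : Subgroup L :=
    { carrier := {l | ∃ g : F2, rh g = 1 ∧ ∀ x ∈ X1, sh (pi g) x = sh l x}
      mul_mem' := by
        rintro l l' ⟨g, h1, h2⟩ ⟨g', h1', h2'⟩
        refine ⟨g * g', by rw [map_mul, h1, h1', one_mul], fun x hx => ?_⟩
        rw [map_mul, map_mul, map_mul]
        show sh (pi g) (sh (pi g') x) = sh l (sh l' x)
        rw [h2' x hx, h2 _ (sh_mem_X1 _ hx)]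
      one_mem' := ⟨1, map_one _, fun x _ => by rw [map_one]⟩
      inv_mem' := by
        rintro l ⟨g, h1, h2⟩
        refine ⟨g⁻¹, by rw [map_inv, h1, inv_one], fun x hx => ?_⟩
        have h3 := h2 (sh l⁻¹ x) (sh_mem_X1 _ hx)
        have h4 : sh l (sh l⁻¹ x) = x := by
          rw [← Homeomorph.mul_apply, ← map_mul, mul_inv_cancel, map_one]
          rfl
        rw [h4] at h3
        have h5 : sh (pi g)⁻¹ (sh (pi g) (sh l⁻¹ x)) = sh l⁻¹ x := by
          rw [← Homeomorph.mul_apply, ← map_mul, inv_mul_cancel, map_one]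
          rfl
        rw [h3] at h5
        rw [map_inv]
        exact h5 }
  have hS : ∀ l, l ∈ S := by
    refine mem_of_gens S ?_ ?_
    · exact ⟨ga, rh_ga, fun x _ => by rw [pi_ga]⟩
    · refine ⟨gb, rh_gb, fun x hx => ?_⟩
      rw [pi_gb, pow_succ', map_mul]
      show sh b (sh (b ^ 2) x) = sh b x
      rw [sh_b2 hx]
  exact hS l

end Pool.Agent.H139R3.CF
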