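import Mathlib
import Pool.Agent.H139R3.CF.Space

set_option autoImplicit false

/-!
# A compressible orbit-universal subshift of the free group of rank two
-/

namespace Pool.Agent.H139R3.CF

open Set MeasureTheory Pool.Agent.H139R3.MS

universe u

/-- The local observable. -/
def Oc (i : Fin 3) (p : P) : Bool :=
  bif p.1 then true else bif p.2 0 then false else
    bif p.2 1 then decide (i = 1) else decide (i = 0)

/-- The observable. -/
def Ob (w : X × P) : Bool := Oc (w.1 1) w.2

theorem continuous_Ob : Continuous Ob := by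
  have h : Continuous (fun w : X × P => (w.1 1, w.2.1, w.2.2 0, w.2.2 1)) :=
    ((continuous_apply (1 : L)).comp continuous_fst).prodMk
      ((continuous_fst.comp continuous_snd).prodMk
        (((continuous_coord 0).comp continuous_snd).prodMk
          ((continuous_coord 1).comp continuous_snd)))
  exact (continuous_of_discreteTopology (f := fun q : Fin 3 × Bool × Bool × Bool =>
      (bif q.2.1 then true else bif q.2.2.1 then false else
        bif q.2.2.2 then decide (q.1 = 1) else decide (q.1 = 0)))).comp h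

/-- The coding map. -/
def Ph (w : X × P) : F2 → Bool := fun g => Ob (act g⁻¹ w)

theorem Ph_shift (g : F2) (w : X × P) : Ph (act g w) = shift g (Ph w) := by
  funext h
  unfold Ph shift
  beta_reduce
  rw [mul_inv_rev, inv_inv, act_mul]

theorem continuous_Ph : Continuous Ph := by
  refine continuous_pi fun g => ?_
  exact continuous_Ob.comp (continuous_act _)

/-- Two points with the same observations along the orbits. -/
def Eq' (w w' : X × P) : Prop := ∀ g, Ob (act g w) = Ob (act g w')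

theorem Eq'.act {w w' : X × P} (h : Eq' w w') (g : F2) : Eq' (act g w) (act g w') := by
  intro k
  rw [← act_mul, ← act_mul]
  exact h _

theorem eq'_of_Ph {w w' : X × P} (h : Ph w = Ph w') : Eq' w w' := by
  intro g
  have := congrFun h g⁻¹
  unfold Ph at this
  rwa [inv_inv] at this

theorem Ob_B (x : X) (y : ℕ → Bool) : Ob (x, (true, y)) = true := rfl
theorem Ob_A1 (x : X) (y : ℕ → Bool) : Ob (x, (false, cons true y)) = false := rfl

theorem three {x x' : X} (hx : x ∈ X1) (hx' : x' ∈ X1) {p p' : P} (h : Eq' (x, p) (x', p')) :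
    Ob (x, p) = Ob (x', p') ∧ Ob (x, df p) = Ob (x', df p') ∧
      Ob (x, df (df p)) = Ob (x', df (df p')) := by
  have h0 := h 1
  have h1 := h gd
  have h2 := h (gd * gd)
  rw [act_one, act_one] at h0
  rw [act_gd hx, act_gd hx'] at h1
  rw [act_mul, act_mul, act_gd hx, act_gd hx', act_gd hx, act_gd hx'] at h2
  exact ⟨h0, h1, h2⟩

theorem region {x x' : X} (hx : x ∈ X1) (hx' : x' ∈ X1) {p p' : P} (h : Eq' (x, p) (x', p')) :
    p.1 = p'.1 ∧ (p.1 = false → p.2 0 = p'.2 0) := by
  obtain ⟨h0, h1, h2⟩ := three hx hx' h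
  rcases cases3 p with ⟨y, rfl⟩ | ⟨y, rfl⟩ | ⟨y, rfl⟩ <;>
  rcases cases3 p' with ⟨y', rfl⟩ | ⟨y', rfl⟩ | ⟨y', rfl⟩
  · simp
  · rw [df_B, df_A0, df_A0, df_A1, Ob_A1, Ob_B] at h2
    exact absurd h2 (by simp)
  · rw [Ob_B, Ob_A1] at h0
    exact absurd h0 (by simp)
  · rw [df_B, df_A0, df_A0, df_A1, Ob_A1, Ob_B] at h2
    exact absurd h2 (by simp)
  · simp
  · rw [df_A0, df_A1, Ob_A1, Ob_B] at h1
    exact absurd h1 (by simp)
  · rw [Ob_B, Ob_A1] at h0
    exact absurd h0 (by simp)
  · rw [df_A0, df_A1, Ob_A1, Ob_B] at h1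
    exact absurd h1 (by simp)
  · simp

theorem bit (n : ℕ) : ∀ {x x' : X}, x ∈ X1 → x' ∈ X1 → ∀ {p p' : P}, Eq' (x, p) (x', p') →
    p.2 n = p'.2 n := by
  induction n with
  | zero =>
    intro x x' hx hx' p p' h
    obtain ⟨h1, h2⟩ := region hx hx' h
    cases hp : p.1
    · exact h2 hp
    · have h3 := h.act gc
      rw [act_gc, act_gc] at h3
      obtain ⟨-, h4⟩ := region hx hx' h3
      exact h4 (by show (!p.1) = false; rw [hp]; rfl)
  | succ n ih =>
    have key : ∀ {x x' : X}, x ∈ X1 → x' ∈ X1 → ∀ {p p' : P}, p.1 = false → p'.1 = false →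
        Eq' (x, p) (x', p') → p.2 (n + 1) = p'.2 (n + 1) := by
      intro x x' hx hx' p p' hp hp' h
      obtain ⟨-, h2⟩ := region hx hx' h
      have h3 := h2 hp
      rcases cases3 p with ⟨y, rfl⟩ | ⟨y, rfl⟩ | ⟨y, rfl⟩ <;>
      rcases cases3 p' with ⟨y', rfl⟩ | ⟨y', rfl⟩ | ⟨y', rfl⟩
      · exact absurd hp (by simp)
      · exact absurd hp (by simp)
      · exact absurd hp (by simp)
      · exact absurd hp' (by simp)
      · have h4 := (h.act gd).act gd
        rw [act_gd hx, act_gd hx', act_gd hx, act_gd hx', df_A0, df_A1, df_A0, df_A1] at h4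
        exact ih hx hx' h4
      · exact absurd h3 (by simp)
      · exact absurd hp' (by simp)
      · exact absurd h3 (by simp)
      · have h4 := h.act gd
        rw [act_gd hx, act_gd hx', df_A1, df_A1] at h4
        exact ih hx hx' h4
    intro x x' hx hx' p p' h
    obtain ⟨h1, -⟩ := region hx hx' h
    cases hp : p.1
    · exact key hx hx' hp (by rw [← h1, hp]) h
    · have h3 := h.act gc
      rw [act_gc, act_gc] at h3
      exact key (p := cf p) (p' := cf p') hx hx' (by show (!p.1) = false; rw [hp]; rfl)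
        (by show (!p'.1) = false; rw [← h1, hp]; rfl) h3

theorem snd_eq {x x' : X} (hx : x ∈ X1) (hx' : x' ∈ X1) {p p' : P} (h : Eq' (x, p) (x', p')) :
    p = p' := by
  refine Prod.ext (region hx hx' h).1 ?_
  funext n
  exact bit n hx hx' h

/-- The second factor can be moved to the two data regions. -/
theorem toB (p : P) : ∃ g : F2, ∃ y, ∀ x ∈ X1, act g (x, p) = (x, (true, y)) := by
  obtain ⟨i, y⟩ := p
  cases i
  · exact ⟨gc, y, fun x _ => by rw [act_gc]; rfl⟩
  · exact ⟨1, y, fun x _ => act_one _⟩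

theorem toA0 (p : P) : ∃ g : F2, ∃ y, ∀ x ∈ X1,
    act g (x, p) = (x, (false, cons false (cons false y))) := by
  obtain ⟨g, y, h⟩ := toB p
  refine ⟨gd * (gc * (gd * g)), y, fun x hx => ?_⟩
  rw [act_mul, act_mul, act_mul, h x hx, act_gd hx, df_B, act_gc, act_gd hx]
  rfl

theorem toA1 (p : P) : ∃ g : F2, ∃ y, ∀ x ∈ X1,
    act g (x, p) = (x, (false, cons false (cons true y))) := by
  obtain ⟨g, y, h⟩ := toB p
  refine ⟨gd * (gc * (gd * (gd * g))), y, fun x hx => ?_⟩
  rw [act_mul, act_mul, act_mul, act_mul, h x hx, act_gd hx, df_B, act_gd hx, df_A0, act_gc,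
    act_gd hx]
  rfl

theorem fst_eq {x x' : X} (hx : x ∈ X1) (hx' : x' ∈ X1) {p : P} (h : Eq' (x, p) (x', p)) :
    x = x' := by
  funext m
  obtain ⟨k, hk1, hk2⟩ := realise m⁻¹
  have hk : ∀ z ∈ X1, act k (z, p) = (sh m⁻¹ z, p) := by
    intro z hz
    unfold act
    refine Prod.ext (hk2 z hz) ?_
    show rh k p = p
    rw [hk1]
    rfl
  have h1 := h.act k
  rw [hk x hx, hk x' hx'] at h1
  have e : ∀ z : X, sh m⁻¹ z 1 = z m := by
    intro z
    rw [sh_apply]
    simp
  obtain ⟨g, y, hg⟩ := toA0 p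
  obtain ⟨g', y', hg'⟩ := toA1 p
  have h2 := h1 g
  rw [hg _ (sh_mem_X1 _ hx), hg _ (sh_mem_X1 _ hx')] at h2
  have h3 := h1 g'
  rw [hg' _ (sh_mem_X1 _ hx), hg' _ (sh_mem_X1 _ hx')] at h3
  have h4 : decide (x m = 0) = decide (x' m = 0) := by
    rw [← e x, ← e x']
    exact h2
  have h5 : decide (x m = 1) = decide (x' m = 1) := by
    rw [← e x, ← e x']
    exact h3
  rw [decide_eq_decide] at h4 h5
  generalize x m = i at h4 h5
  generalize x' m = j at h4 h5
  revert h4 h5
  revert i j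
  decide

theorem Ph_inj {w w' : X × P} (hw : w ∈ W) (hw' : w' ∈ W) (h : Ph w = Ph w') : w = w' := by
  obtain ⟨x, p⟩ := w
  obtain ⟨x', p'⟩ := w'
  have h1 := eq'_of_Ph h
  have h2 : p = p' := snd_eq hw hw' h1
  subst h2
  have h3 : x = x' := fst_eq hw hw' h1
  rw [h3]

/-- The subshift. -/
def K1 : Set (F2 → Bool) := Ph '' W

theorem K1_subshift : IsSubshift K1 := by
  refine ⟨⟨Ph (fun _ => 0, (true, fun _ => true)), _, fun _ _ => rfl, rfl⟩,
    (isClosed_W.isCompact.image continuous_Ph).isClosed, ?_⟩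
  rintro g _ ⟨w, hw, rfl⟩
  exact ⟨act g w, act_mem_W g hw, Ph_shift g w⟩

/-- Compressibility of the orbit equivalence relation of the shift on `K`: a Borel injection of
`K` into itself which maps every orbit onto a proper subset of itself. -/
def CompressibleOn {G : Type} [Group G] (K : Set (G → Bool)) : Prop :=
  ∃ f : K → K, Measurable f ∧ Function.Injective f ∧
    ∀ x : K, f '' {y : K | ∃ g : G, (y : G → Bool) = shift g (x : G → Bool)} ⊂
      {y : K | ∃ g : G, (y : G → Bool) = shift g (x : G → Bool)}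

/-- The compression on the compact space. -/
def Tm (w : X × P) : X × P := bif w.2.1 then act gd w else act (gd * (gd * gc)) w

theorem Tm_true {x : X} (hx : x ∈ X1) (y : ℕ → Bool) :
    Tm (x, (true, y)) = (x, (false, cons false y)) := by
  show act gd (x, (true, y)) = _
  rw [act_gd hx, df_B]

theorem Tm_false {x : X} (hx : x ∈ X1) (y : ℕ → Bool) :
    Tm (x, (false, y)) = (x, (false, cons true y)) := by
  show act (gd * (gd * gc)) (x, (false, y)) = _
  rw [act_mul, act_mul, act_gc, act_gd hx, act_gd hx]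
  rfl

theorem cons_inj {i j : Bool} {y z : ℕ → Bool} (h : cons i y = cons j z) : i = j ∧ y = z :=
  ⟨congrFun h 0, funext fun n => congrFun h (n + 1)⟩

theorem Tm_inj {w w' : X × P} (hw : w ∈ W) (hw' : w' ∈ W) (h : Tm w = Tm w') : w = w' := by
  obtain ⟨x, i, y⟩ := w
  obtain ⟨x', i', y'⟩ := w'
  cases i <;> cases i'
  · rw [Tm_false hw, Tm_false hw'] at h
    simp only [Prod.mk.injEq, true_and] at h
    rw [h.1, (cons_inj h.2).2]
  · rw [Tm_false hw, Tm_true hw'] at h
    simp only [Prod.mk.injEq, true_and] at h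
    exact absurd (cons_inj h.2).1 (by simp)
  · rw [Tm_true hw, Tm_false hw'] at h
    simp only [Prod.mk.injEq, true_and] at h
    exact absurd (cons_inj h.2).1 (by simp)
  · rw [Tm_true hw, Tm_true hw'] at h
    simp only [Prod.mk.injEq, true_and] at h
    rw [h.1, (cons_inj h.2).2]

theorem Tm_fst {w : X × P} (hw : w ∈ W) : (Tm w).2.1 = false := by
  obtain ⟨x, i, y⟩ := w
  cases i
  · rw [Tm_false hw]
  · rw [Tm_true hw]

theorem Tm_mem {w : X × P} (hw : w ∈ W) : Tm w ∈ W := by
  unfold Tm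
  cases w.2.1
  · exact act_mem_W _ hw
  · exact act_mem_W _ hw

/-- The compression, read off from the code. -/
def Fm (z : F2 → Bool) : F2 → Bool :=
  bif (z 1 && !(z (gd * gd)⁻¹)) then shift gd z else shift (gd * (gd * gc)) z

theorem Fm_Ph {w : X × P} (hw : w ∈ W) : Fm (Ph w) = Ph (Tm w) := by
  have e : (Ph w 1 && !(Ph w (gd * gd)⁻¹)) = w.2.1 := by
    obtain ⟨x, p⟩ := w
    have h1 : Ph (x, p) 1 = Ob (x, p) := by
      unfold Ph
      rw [inv_one, act_one]
    have h2 : Ph (x, p) (gd * gd)⁻¹ = Ob (x, df (df p)) := by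
      unfold Ph
      rw [inv_inv, act_mul, act_gd hw, act_gd hw]
    rw [h1, h2]
    rcases cases3 p with ⟨y, rfl⟩ | ⟨y, rfl⟩ | ⟨y, rfl⟩
    · rw [df_B, df_A0, Ob_A1, Ob_B]
      rfl
    · rw [df_A0, df_A1, Ob_B]
      simp
    · rw [Ob_A1]
      rfl
  unfold Fm Tm
  rw [e]
  cases w.2.1
  · exact (Ph_shift _ _).symm
  · exact (Ph_shift _ _).symm

theorem measurable_shift (g : F2) : Measurable (shift g : (F2 → Bool) → F2 → Bool) :=
  measurable_pi_iff.2 fun h => measurable_pi_apply _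

theorem measurable_Fm : Measurable Fm := by
  have h0 : Measurable (fun z : F2 → Bool => (z 1, z (gd * gd)⁻¹)) :=
    (measurable_pi_apply _).prodMk (measurable_pi_apply _)
  have h1 : Measurable (fun z : F2 → Bool => (z 1 && !(z (gd * gd)⁻¹))) :=
    (measurable_of_countable (fun q : Bool × Bool => (q.1 && !q.2))).comp h0
  have h2 : MeasurableSet {z : F2 → Bool | (z 1 && !(z (gd * gd)⁻¹)) = true} :=
    h1 (measurableSet_singleton true)
  have e : Fm = fun z => if (z 1 && !(z (gd * gd)⁻¹)) = true then shift gd z else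
      shift (gd * (gd * gc)) z := by
    funext z
    unfold Fm
    cases (z 1 && !(z (gd * gd)⁻¹)) <;> simp
  rw [e]
  exact Measurable.ite h2 (measurable_shift _) (measurable_shift _)

theorem Fm_orbit (z : F2 → Bool) : ∃ g, Fm z = shift g z := by
  unfold Fm
  cases (z 1 && !(z (gd * gd)⁻¹))
  · exact ⟨_, rfl⟩
  · exact ⟨_, rfl⟩

theorem Fm_mem {z : F2 → Bool} (hz : z ∈ K1) : Fm z ∈ K1 := by
  obtain ⟨w, hw, rfl⟩ := hz
  rw [Fm_Ph hw]
  exact ⟨_, Tm_mem hw, rfl⟩

theorem shift_shift (g h : F2) (z : F2 → Bool) : shift g (shift h z) = shift (g * h) z := by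
  funext k
  unfold shift
  rw [mul_inv_rev, mul_assoc]

theorem K1_compressible : CompressibleOn K1 := by
  refine ⟨fun z => ⟨Fm z, Fm_mem z.2⟩, (measurable_Fm.comp measurable_subtype_coe).subtype_mk,
    ?_, ?_⟩
  · rintro ⟨_, w, hw, rfl⟩ ⟨_, w', hw', rfl⟩ h
    have h1 : Fm (Ph w) = Fm (Ph w') := congrArg Subtype.val h
    rw [Fm_Ph hw, Fm_Ph hw'] at h1
    have h2 := Tm_inj hw hw' (Ph_inj (Tm_mem hw) (Tm_mem hw') h1)
    subst h2
    rfl
  · intro x
    rw [ssubset_iff_exists]
    refine ⟨?_, ?_⟩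
    · rintro _ ⟨y, ⟨g, hg⟩, rfl⟩
      obtain ⟨k, hk⟩ := Fm_orbit (y : F2 → Bool)
      refine ⟨k * g, ?_⟩
      show Fm (y : F2 → Bool) = _
      rw [hk, hg, shift_shift]
    · have hno : ∀ w ∈ W, w.2.1 = true → ∀ hz : Ph w ∈ K1,
          (⟨Ph w, hz⟩ : K1) ∉ (fun z : K1 => (⟨Fm z, Fm_mem z.2⟩ : K1)) ''
            {y : K1 | ∃ g : F2, (y : F2 → Bool) = shift g (x : F2 → Bool)} := by
        rintro w hw h1 hz ⟨⟨_, w', hw', rfl⟩, -, h⟩
        have h2 : Fm (Ph w') = Ph w := congrArg Subtype.val h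
        rw [Fm_Ph hw'] at h2
        have h3 := Ph_inj (Tm_mem hw') hw h2
        have h4 := Tm_fst hw'
        rw [h3, h1] at h4
        exact absurd h4 (by simp)
      obtain ⟨_, w, hw, rfl⟩ := x
      cases hb : w.2.1
      · refine ⟨⟨Ph (act gc w), act gc w, act_mem_W _ hw, rfl⟩, ⟨gc, Ph_shift gc w⟩,
          hno _ (act_mem_W _ hw) ?_ _⟩
        obtain ⟨x, p⟩ := w
        rw [act_gc]
        show (!p.1) = true
        rw [show p.1 = false from hb]
        rfl
      · refine ⟨⟨Ph w, w, hw, rfl⟩, ⟨1, ?_⟩, hno _ hw hb _⟩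
        show Ph w = shift 1 (Ph w)
        rw [← Ph_shift, act_one]

theorem it_mem_X1 {Y : Type u} (s : ℕ → Y → Y) (hs : ∀ n x, s n (s n x) = x)
    (e : Y → ℕ → Bool) (p : ZZ Y) : it s hs e p ∈ X1 := by
  have hb : th s hs (b ^ 2) = 1 := by
    ext1 q
    have := th_b_sq s hs 1 q
    rw [pow_one] at this
    exact this
  intro l m
  unfold it
  rw [mul_inv_rev, mul_inv_rev, mul_inv_rev, map_mul, map_mul, map_mul, map_inv (th s hs) (b ^ 2),
    hb, inv_one, one_mul]

/-- The base point of the second factor. -/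
def p0 : P := (true, fun _ => false)

theorem K1_universal : UniversalOn.{u} K1 := by
  intro Y _ _ R hR
  obtain ⟨hR, hm, hc⟩ := hR
  obtain ⟨s, hsm, hs, hsR⟩ := FM.feldman_moore R hR hm hc
  obtain ⟨e, he, hinj⟩ := MeasurableSpace.measurable_injection_nat_bool_of_countablySeparated Y
  have hW : ∀ y, (it s hs e (y, (0, 2)), p0) ∈ W := fun y => it_mem_X1 s hs e _
  refine ⟨fun y => ⟨Ph (it s hs e (y, (0, 2)), p0), _, hW y, rfl⟩, ?_, ?_⟩
  · refine Measurable.subtype_mk ?_
    rw [measurable_pi_iff]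
    intro g
    have : (fun y : Y => Ph (it s hs e (y, (0, 2)), p0) g) =
        (fun i : Fin 3 => Oc i (rh g⁻¹ p0)) ∘
          (fun y : Y => it s hs e (y, (0, 2)) ((pi g⁻¹)⁻¹ * 1)) := by
      funext y
      rfl
    rw [this]
    exact (measurable_of_countable _).comp (measurable_it s hs hsm e he _)
  · intro y z
    constructor
    · intro h
      obtain ⟨n, hn⟩ := (hsR y z).1 h
      obtain ⟨g, hg1, hg2⟩ := realise (om n)
      refine ⟨g, ?_⟩
      show Ph _ = shift g (Ph _)
      rw [← Ph_shift]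
      congr 1
      unfold act
      refine Prod.ext ?_ ?_
      · show _ = sh (pi g) (it s hs e (y, (0, 2)))
        rw [hg2 _ (it_mem_X1 s hs e _), sh_it, th_om, hn]
      · show p0 = rh g p0
        rw [hg1]
        rfl
    · rintro ⟨g, hg⟩
      have hg' : Ph (it s hs e (z, (0, 2)), p0) = Ph (act g (it s hs e (y, (0, 2)), p0)) := by
        rw [Ph_shift]
        exact hg
      have h1 := Ph_inj (hW z) (act_mem_W g (hW y)) hg'
      have h2 : it s hs e (z, (0, 2)) = sh (pi g) (it s hs e (y, (0, 2))) :=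
        congrArg Prod.fst h1
      rw [sh_it] at h2
      have h3 := it_inj s hs e hinj _ z h2.symm
      have h4 := th_rel s hs R hR (fun n x => (hsR x _).2 ⟨n, rfl⟩) (pi g) (y, (0, 2))
      rw [h3] at h4
      exact h4

end Pool.Agent.H139R3.CF
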