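import Mathlib
import Pool.Agent.H139R3.CF.Main

set_option autoImplicit false

/-!
# Compressible orbit-universal subshifts for extensions
-/

namespace Pool.Agent.H139R3.CF

open Set MeasureTheory Pool.Agent.H139R3.MS

universe u

/-- The local code. -/
def Oc2 (i : Bool) (p : P) : Bool := bif p.1 then true else bif p.2 0 then false else i

theorem region' {p p' : P} {i j k i' j' k' : Bool} (h0 : Oc2 i p = Oc2 i' p')
    (h1 : Oc2 j (df p) = Oc2 j' (df p')) (h2 : Oc2 k (df (df p)) = Oc2 k' (df (df p'))) :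
    p.1 = p'.1 ∧ (p.1 = false → p.2 0 = p'.2 0) := by
  rcases cases3 p with ⟨y, rfl⟩ | ⟨y, rfl⟩ | ⟨y, rfl⟩ <;>
  rcases cases3 p' with ⟨y', rfl⟩ | ⟨y', rfl⟩ | ⟨y', rfl⟩
  · simp
  · rw [df_B, df_A0, df_A0, df_A1] at h2
    exact absurd h2 (by simp [Oc2])
  · exact absurd h0 (by simp [Oc2])
  · rw [df_B, df_A0, df_A0, df_A1] at h2
    exact absurd h2 (by simp [Oc2])
  · simp
  · rw [df_A0, df_A1] at h1
    exact absurd h1 (by simp [Oc2])
  · exact absurd h0 (by simp [Oc2])
  · rw [df_A0, df_A1] at h1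
    exact absurd h1 (by simp [Oc2])
  · simp

section

variable {Γ : Type} [Group Γ]

/-- The translation. -/
def tr {α : Type} (γ : Γ) (x : Γ → α) : Γ → α := fun g => x (γ⁻¹ * g)

/-- The code of a pair. -/
def code (x : Γ → Bool) (f : Γ → P) : Γ → Bool := fun g => Oc2 (x g) (f g)

theorem shift_code (γ : Γ) (x : Γ → Bool) (f : Γ → P) :
    shift γ (code x f) = code (tr γ x) (tr γ f) := rfl

theorem continuous_code : Continuous (fun q : (Γ → Bool) × (Γ → P) => code q.1 q.2) := by
  refine continuous_pi fun g => ?_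
  have h : Continuous (fun q : (Γ → Bool) × (Γ → P) => (q.1 g, (q.2 g).1, (q.2 g).2 0)) :=
    ((continuous_apply g).comp continuous_fst).prodMk
      ((continuous_fst.comp ((continuous_apply g).comp continuous_snd)).prodMk
        ((continuous_coord 0).comp ((continuous_apply g).comp continuous_snd)))
  exact (continuous_of_discreteTopology (f := fun q : Bool × Bool × Bool =>
      (bif q.2.1 then true else bif q.2.2 then false else q.1))).comp h

variable (T : Γ → F2 → Prop)

/-- The coinduced space. -/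
def PP : Set (Γ → P) :=
  {f | ∀ (g h : Γ) (u : F2), T h u → f (g * h) = rh u⁻¹ (f g)}

theorem isClosed_PP : IsClosed (PP T) := by
  have : PP T = ⋂ (g : Γ), ⋂ (h : Γ), ⋂ (u : F2), ⋂ (_ : T h u),
      {f : Γ → P | f (g * h) = rh u⁻¹ (f g)} := by
    ext f
    simp only [mem_iInter]
    rfl
  rw [this]
  refine isClosed_iInter fun g => isClosed_iInter fun h => isClosed_iInter fun u =>
    isClosed_iInter fun _ => ?_
  exact isClosed_eq (continuous_apply _) ((rh u⁻¹).continuous.comp (continuous_apply _))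

variable {T}

theorem tr_mem {f : Γ → P} (hf : f ∈ PP T) (γ : Γ) : tr γ f ∈ PP T := by
  intro g h u hu
  show f (γ⁻¹ * (g * h)) = rh u⁻¹ (f (γ⁻¹ * g))
  rw [← mul_assoc]
  exact hf _ _ _ hu

variable {c d : Γ} (hc : T c⁻¹ (FreeGroup.of 0)⁻¹) (hd : T d⁻¹ (FreeGroup.of 1)⁻¹)

include hc in
theorem app_c {f : Γ → P} (hf : f ∈ PP T) (g : Γ) : f (g * c⁻¹) = cf (f g) := by
  have := hf g c⁻¹ (FreeGroup.of 0)⁻¹ hc
  rw [this, inv_inv, rh_0]
  rfl

include hd in
theorem app_d {f : Γ → P} (hf : f ∈ PP T) (g : Γ) : f (g * d⁻¹) = df (f g) := by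
  have := hf g d⁻¹ (FreeGroup.of 1)⁻¹ hd
  rw [this, inv_inv, rh_1]
  rfl

include hd in
theorem region2 {f f' : Γ → P} (hf : f ∈ PP T) (hf' : f' ∈ PP T) {x x' : Γ → Bool}
    (h : code x f = code x' f') (g : Γ) :
    (f g).1 = (f' g).1 ∧ ((f g).1 = false → (f g).2 0 = (f' g).2 0) := by
  have h0 := congrFun h g
  have h1 := congrFun h (g * d⁻¹)
  have h2 := congrFun h (g * d⁻¹ * d⁻¹)
  unfold code at h0 h1 h2
  rw [app_d hd hf, app_d hd hf'] at h1
  rw [app_d hd hf, app_d hd hf, app_d hd hf', app_d hd hf'] at h2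
  exact region' h0 h1 h2

include hc hd in
theorem bit2 {f f' : Γ → P} (hf : f ∈ PP T) (hf' : f' ∈ PP T) {x x' : Γ → Bool}
    (h : code x f = code x' f') (n : ℕ) : ∀ g, (f g).2 n = (f' g).2 n := by
  induction n with
  | zero =>
    intro g
    cases hp : (f g).1
    · exact (region2 hd hf hf' h g).2 hp
    · have h3 := (region2 hd hf hf' h (g * c⁻¹)).2
      rw [app_c hc hf, app_c hc hf'] at h3
      exact h3 (by show (!(f g).1) = false; rw [hp]; rfl)
  | succ n ih =>
    have key : ∀ g, (f g).1 = false → (f g).2 (n + 1) = (f' g).2 (n + 1) := by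
      intro g hp
      obtain ⟨h1, h2⟩ := region2 hd hf hf' h g
      have h3 := h2 hp
      rw [hp] at h1
      have i1 := ih (g * d⁻¹)
      have i2 := ih (g * d⁻¹ * d⁻¹)
      rw [app_d hd hf, app_d hd hf'] at i1
      rw [app_d hd hf, app_d hd hf, app_d hd hf', app_d hd hf'] at i2
      generalize f g = p at *
      generalize f' g = p' at *
      rcases cases3 p with ⟨y, rfl⟩ | ⟨y, rfl⟩ | ⟨y, rfl⟩ <;>
      rcases cases3 p' with ⟨y', rfl⟩ | ⟨y', rfl⟩ | ⟨y', rfl⟩
      · exact absurd hp (by simp)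
      · exact absurd hp (by simp)
      · exact absurd hp (by simp)
      · exact absurd h1 (by simp)
      · rw [df_A0, df_A1, df_A0, df_A1] at i2
        exact i2
      · exact absurd h3 (by simp)
      · exact absurd h1 (by simp)
      · exact absurd h3 (by simp)
      · rw [df_A1, df_A1] at i1
        exact i1
    intro g
    cases hp : (f g).1
    · exact key g hp
    · have h3 := key (g * c⁻¹)
      rw [app_c hc hf, app_c hc hf'] at h3
      exact h3 (by show (!(f g).1) = false; rw [hp]; rfl)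

include hc hd in
theorem decode {f f' : Γ → P} (hf : f ∈ PP T) (hf' : f' ∈ PP T) {x x' : Γ → Bool}
    (h : code x f = code x' f') : f = f' := by
  funext g
  refine Prod.ext (region2 hd hf hf' h g).1 ?_
  funext n
  exact bit2 hc hd hf hf' h n g

variable (T) in
/-- The subshift. -/
def K2 : Set (Γ → Bool) := (fun q : (Γ → Bool) × (Γ → P) => code q.1 q.2) '' (univ ×ˢ PP T)

theorem mem_K2 {z : Γ → Bool} : z ∈ K2 T ↔ ∃ x, ∃ f ∈ PP T, code x f = z := by
  constructor
  · rintro ⟨⟨x, f⟩, ⟨-, hf⟩, rfl⟩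
    exact ⟨x, f, hf, rfl⟩
  · rintro ⟨x, f, hf, rfl⟩
    exact ⟨⟨x, f⟩, ⟨trivial, hf⟩, rfl⟩

theorem isClosed_K2 : IsClosed (K2 T) :=
  ((isCompact_univ.prod (isClosed_PP T).isCompact).image continuous_code).isClosed

theorem shift_mem_K2 (γ : Γ) {z : Γ → Bool} (hz : z ∈ K2 T) : shift γ z ∈ K2 T := by
  obtain ⟨x, f, hf, rfl⟩ := mem_K2.1 hz
  exact mem_K2.2 ⟨_, _, tr_mem hf γ, rfl⟩

/-- The compressing element. -/
def gam (c d : Γ) (i : Bool) : Γ := bif i then d else d * (d * c)

/-- The compression. -/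
def Fg (c d : Γ) (z : Γ → Bool) : Γ → Bool := shift (gam c d (z 1 && !(z (d * d)⁻¹))) z

include hd in
theorem Fg_code {f : Γ → P} (hf : f ∈ PP T) (x : Γ → Bool) :
    Fg c d (code x f) = code (tr (gam c d (f 1).1) x) (tr (gam c d (f 1).1) f) := by
  have e : (code x f 1 && !(code x f (d * d)⁻¹)) = (f 1).1 := by
    have h2 : code x f (d * d)⁻¹ = Oc2 (x (d * d)⁻¹) (df (df (f 1))) := by
      unfold code
      rw [← app_d hd hf, ← app_d hd hf, one_mul, mul_inv_rev]
    rw [h2]
    unfold code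
    generalize f 1 = p
    rcases cases3 p with ⟨y, rfl⟩ | ⟨y, rfl⟩ | ⟨y, rfl⟩
    · rw [df_B, df_A0]
      rfl
    · rw [df_A0, df_A1]
      simp [Oc2]
    · rfl
  unfold Fg
  rw [e, shift_code]

include hc hd in
theorem tr_gam {f : Γ → P} (hf : f ∈ PP T) :
    tr (gam c d (f 1).1) f 1 = (false, cons (!(f 1).1) (f 1).2) := by
  unfold tr gam
  rw [mul_one]
  cases hp : (f 1).1
  · show f (d * (d * c))⁻¹ = _
    rw [mul_inv_rev, mul_inv_rev]
    rw [app_d hd hf, app_d hd hf]
    have := app_c hc hf 1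
    rw [one_mul] at this
    rw [this]
    have h2 : f 1 = (false, (f 1).2) := Prod.ext hp rfl
    rw [h2]
    rfl
  · show f d⁻¹ = _
    have := app_d hd hf 1
    rw [one_mul] at this
    rw [this]
    have h2 : f 1 = (true, (f 1).2) := Prod.ext hp rfl
    rw [h2]
    rfl

theorem shift_inj (γ : Γ) {z z' : Γ → Bool} (h : shift γ z = shift γ z') : z = z' := by
  funext g
  have := congrFun h (γ * g)
  unfold shift at this
  rwa [inv_mul_cancel_left] at this

theorem measurable_Fg : Measurable (Fg c d) := by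
  have h0 : Measurable (fun z : Γ → Bool => (z 1, z (d * d)⁻¹)) :=
    (measurable_pi_apply _).prodMk (measurable_pi_apply _)
  have h1 : Measurable (fun z : Γ → Bool => (z 1 && !(z (d * d)⁻¹))) :=
    (measurable_of_countable (fun q : Bool × Bool => (q.1 && !q.2))).comp h0
  have h2 : MeasurableSet {z : Γ → Bool | (z 1 && !(z (d * d)⁻¹)) = true} :=
    h1 (measurableSet_singleton true)
  have e : Fg c d = fun z => if (z 1 && !(z (d * d)⁻¹)) = true then shift d z else
      shift (d * (d * c)) z := by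
    funext z
    unfold Fg gam
    cases (z 1 && !(z (d * d)⁻¹)) <;> simp
  rw [e]
  have hs : ∀ γ : Γ, Measurable (shift γ : (Γ → Bool) → Γ → Bool) := fun γ =>
    measurable_pi_iff.2 fun h => measurable_pi_apply _
  exact Measurable.ite h2 (hs _) (hs _)

theorem shift_shift' (g h : Γ) (z : Γ → Bool) : shift g (shift h z) = shift (g * h) z := by
  funext k
  unfold shift
  rw [mul_inv_rev, mul_assoc]

theorem Fg_mem {z : Γ → Bool} (hz : z ∈ K2 T) : Fg c d z ∈ K2 T := shift_mem_K2 _ hz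

include hc hd in
theorem K2_compressible : CompressibleOn (K2 T) := by
  refine ⟨fun z => ⟨Fg c d z, Fg_mem z.2⟩,
    (measurable_Fg.comp measurable_subtype_coe).subtype_mk, ?_, ?_⟩
  · rintro ⟨z, hz⟩ ⟨z', hz'⟩ h
    obtain ⟨x, f, hf, rfl⟩ := mem_K2.1 hz
    obtain ⟨x', f', hf', rfl⟩ := mem_K2.1 hz'
    have h1 : Fg c d (code x f) = Fg c d (code x' f') := congrArg Subtype.val h
    have h0 := h1
    rw [Fg_code hd hf, Fg_code hd hf'] at h1
    have h2 := decode hc hd (tr_mem hf _) (tr_mem hf' _) h1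
    have h3 := congrFun h2 1
    rw [tr_gam hc hd hf, tr_gam hc hd hf'] at h3
    have h4 : (!(f 1).1) = (!(f' 1).1) := (cons_inj (congrArg Prod.snd h3)).1
    have h5 : (f 1).1 = (f' 1).1 := by simpa using h4
    rw [h5] at h1
    have h6 : shift (gam c d (f' 1).1) (code x f) = shift (gam c d (f' 1).1) (code x' f') := h1
    exact Subtype.ext (shift_inj _ h6)
  · intro x
    rw [ssubset_iff_exists]
    refine ⟨?_, ?_⟩
    · rintro _ ⟨y, ⟨g, hg⟩, rfl⟩
      refine ⟨gam c d ((y : Γ → Bool) 1 && !((y : Γ → Bool) (d * d)⁻¹)) * g, ?_⟩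
      show shift _ (y : Γ → Bool) = _
      rw [← shift_shift', ← hg]
    · have hno : ∀ (t : Γ → Bool) (f : Γ → P), f ∈ PP T → (f 1).1 = true →
          ∀ hz : code t f ∈ K2 T,
          (⟨code t f, hz⟩ : K2 T) ∉ (fun z : K2 T => (⟨Fg c d z, Fg_mem z.2⟩ : K2 T)) ''
            {y : K2 T | ∃ g : Γ, (y : Γ → Bool) = shift g (x : Γ → Bool)} := by
        rintro t f hf h1 hz ⟨⟨z', hz'⟩, -, h⟩
        obtain ⟨x', f', hf', rfl⟩ := mem_K2.1 hz'
        have h2 : Fg c d (code x' f') = code t f := congrArg Subtype.val h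
        rw [Fg_code hd hf'] at h2
        have h3 := congrFun (decode hc hd (tr_mem hf' _) hf h2) 1
        rw [tr_gam hc hd hf'] at h3
        rw [← h3] at h1
        exact absurd h1 (by simp)
      obtain ⟨z, hz⟩ := x
      obtain ⟨t, f, hf, rfl⟩ := mem_K2.1 hz
      cases hb : (f 1).1
      · refine ⟨⟨shift c (code t f), shift_mem_K2 c hz⟩, ⟨c, rfl⟩, ?_⟩
        refine hno (tr c t) (tr c f) (tr_mem hf c) ?_ _
        show (f (c⁻¹ * 1)).1 = true
        have := app_c hc hf 1
        rw [one_mul] at this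
        rw [mul_one, this]
        show (!(f 1).1) = true
        rw [hb]
        rfl
      · refine ⟨⟨code t f, hz⟩, ⟨1, ?_⟩, hno t f hf hb _⟩
        show code t f = shift 1 (code t f)
        funext g
        unfold shift
        rw [inv_one, one_mul]

end

end Pool.Agent.H139R3.CF
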