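import Mathlib
import Pool.Agent.H139R3.CF.Ext

set_option autoImplicit false

/-!
# Universality of the subshift, and pull-backs
-/

namespace Pool.Agent.H139R3.CF

open Set MeasureTheory Pool.Agent.H139R3.MS

universe u

section

variable {Γ : Type} [Group Γ]

/-- A base point of the coinduced space, depending only on the coset. -/
theorem exists_base {N : Subgroup Γ} [N.Normal] {κ : F2 →* Γ ⧸ N} (hκ : Function.Injective κ) :
    ∃ f ∈ PP (fun (h : Γ) (u : F2) => (h : Γ ⧸ N) = κ u),
      (∀ g h : Γ, (g : Γ ⧸ N) = h → f g = f h) ∧ f 1 = (false, fun _ => false) := by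
  classical
  let rep : Γ ⧸ N → Γ ⧸ N := fun q => Quotient.out (QuotientGroup.mk q : (Γ ⧸ N) ⧸ κ.range)
  have hrep : ∀ q, ∃ u : F2, κ u = (rep q)⁻¹ * q := by
    intro q
    have h1 : (QuotientGroup.mk (rep q) : (Γ ⧸ N) ⧸ κ.range) = QuotientGroup.mk q :=
      QuotientGroup.out_eq' _
    exact QuotientGroup.eq.1 h1
  choose w hw using hrep
  have hmul : ∀ (q : Γ ⧸ N) (v : F2), w (q * κ v) = w q * v := by
    intro q v
    apply hκ
    rw [hw, map_mul, hw]
    have h1 : rep (q * κ v) = rep q := by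
      show Quotient.out (QuotientGroup.mk (q * κ v) : (Γ ⧸ N) ⧸ κ.range) =
        Quotient.out (QuotientGroup.mk q : (Γ ⧸ N) ⧸ κ.range)
      congr 1
      refine (QuotientGroup.eq.2 ?_).symm
      rw [inv_mul_cancel_left]
      exact ⟨v, rfl⟩
    rw [h1, mul_assoc]
  refine ⟨fun g => rh (w (g : Γ ⧸ N))⁻¹ (rh (w 1) (false, fun _ => false)), ?_, ?_, ?_⟩
  · intro g h v hv
    show rh (w ((g * h : Γ) : Γ ⧸ N))⁻¹ _ = rh v⁻¹ (rh (w (g : Γ ⧸ N))⁻¹ _)
    rw [QuotientGroup.mk_mul, hv, hmul, mul_inv_rev, map_mul]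
    rfl
  · intro g h hgh
    show rh (w (g : Γ ⧸ N))⁻¹ _ = rh (w (h : Γ ⧸ N))⁻¹ _
    rw [hgh]
  · show rh (w ((1 : Γ) : Γ ⧸ N))⁻¹ (rh (w 1) _) = _
    rw [QuotientGroup.mk_one, ← Homeomorph.mul_apply, ← map_mul, inv_mul_cancel, map_one]
    rfl

theorem K2_universal {T : Γ → F2 → Prop} {c d : Γ} (hc : T c⁻¹ (FreeGroup.of 0)⁻¹)
    (hd : T d⁻¹ (FreeGroup.of 1)⁻¹) (ι : F2 →* Γ) (hι : Function.Injective ι)
    (f : Γ → P) (hf : f ∈ PP T) (hfN : ∀ v g, f (ι v * g) = f g)
    (hf1 : f 1 = (false, fun _ => false)) : UniversalOn.{u} (K2 T) := by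
  classical
  intro Y _ _ R hR
  obtain ⟨r, hr, -, hrR⟩ := reduction R hR.1 hR.2.1 hR.2.2
  have hfN1 : ∀ v, f (ι v) = (false, fun _ => false) := by
    intro v
    have := hfN v 1
    rwa [mul_one, hf1] at this
  let ext : (F2 → Bool) → Γ → Bool := fun x g => if h : ∃ v, ι v = g then x h.choose else false
  have ext_apply : ∀ x v, ext x (ι v) = x v := by
    intro x v
    have h : ∃ v', ι v' = ι v := ⟨v, rfl⟩
    show (if h : ∃ v', ι v' = ι v then x h.choose else false) = x v
    rw [dif_pos h]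
    exact congrArg x (hι h.choose_spec)
  have ext_true : ∀ x g, ext x g = true → ∃ v, ι v = g := by
    intro x g h
    by_contra hcon
    have : ext x g = false := dif_neg hcon
    rw [this] at h
    exact absurd h (by simp)
  have htr : ∀ v x, tr (ι v) (ext x) = ext (shift v x) := by
    intro v x
    funext g
    show ext x ((ι v)⁻¹ * g) = _
    by_cases hg : ∃ v', ι v' = g
    · obtain ⟨v', rfl⟩ := hg
      rw [← map_inv, ← map_mul, ext_apply, ext_apply]
      rfl
    · have h1 : ext (shift v x) g = false := dif_neg hg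
      have h2 : ext x ((ι v)⁻¹ * g) = false := by
        refine dif_neg ?_
        rintro ⟨v', hv'⟩
        exact hg ⟨v * v', by rw [map_mul, hv', mul_inv_cancel_left]⟩
      rw [h1, h2]
  have htrf : ∀ v, tr (ι v) f = f := by
    intro v
    funext g
    show f ((ι v)⁻¹ * g) = f g
    rw [← map_inv]
    exact hfN _ g
  refine ⟨fun y => ⟨code (ext (r y)) f, mem_K2.2 ⟨_, f, hf, rfl⟩⟩, ?_, ?_⟩
  · refine Measurable.subtype_mk ?_
    rw [measurable_pi_iff]
    intro g
    by_cases hg : ∃ v, ι v = g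
    · obtain ⟨v, rfl⟩ := hg
      have : (fun y => code (ext (r y)) f (ι v)) = (fun i : Bool => Oc2 i (f (ι v))) ∘
          (fun y => r y v) := by
        funext y
        show Oc2 (ext (r y) (ι v)) _ = Oc2 (r y v) _
        rw [ext_apply]
      rw [this]
      exact (measurable_of_countable _).comp ((measurable_pi_apply v).comp hr)
    · have : (fun y => code (ext (r y)) f g) = fun _ => Oc2 false (f g) := by
        funext y
        show Oc2 (ext (r y) g) _ = _
        have h1 : ext (r y) g = false := dif_neg hg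
        rw [h1]
      rw [this]
      exact measurable_const
  · intro y z
    constructor
    · intro h
      obtain ⟨v, hv⟩ := (hrR y z).1 h
      refine ⟨ι v, ?_⟩
      show code (ext (r z)) f = shift (ι v) (code (ext (r y)) f)
      rw [shift_code, htr, htrf, hv]
    · rintro ⟨γ, hγ⟩
      have hγ' : code (ext (r z)) f = code (tr γ (ext (r y))) (tr γ f) := hγ
      have hdec := decode hc hd hf (tr_mem hf γ) hγ'
      have hbit : ∀ g, f g = (false, fun _ => false) → ext (r z) g = ext (r y) (γ⁻¹ * g) := by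
        intro g hg
        have h1 := congrFun hγ' g
        have h2 : tr γ f g = f g := (congrFun hdec g).symm
        unfold code at h1
        rw [h2, hg] at h1
        exact h1
      by_cases h0 : ∃ v, r y v = true
      · obtain ⟨v, hv⟩ := h0
        have h1 : f (γ * ι v) = (false, fun _ => false) := by
          rw [hdec]
          show f (γ⁻¹ * (γ * ι v)) = _
          rw [inv_mul_cancel_left, hfN1]
        have h2 := hbit _ h1
        rw [inv_mul_cancel_left, ext_apply, hv] at h2
        obtain ⟨v', hv'⟩ := ext_true _ _ h2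
        have h3 : γ = ι (v' * v⁻¹) := by
          rw [map_mul, map_inv, hv', mul_inv_cancel_right]
        refine (hrR y z).2 ⟨v' * v⁻¹, ?_⟩
        funext t
        have h4 := hbit (ι t) (hfN1 t)
        rw [h3, ext_apply, ← map_inv, ← map_mul, ext_apply] at h4
        exact h4
      · have hy0 : r y = fun _ => false := by
          funext v
          by_contra hv
          exact h0 ⟨v, by simpa using hv⟩
        refine (hrR y z).2 ⟨1, ?_⟩
        funext t
        have h4 := hbit (ι t) (hfN1 t)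
        rw [ext_apply] at h4
        rw [h4]
        have h5 : ∀ g, ext (r y) g = false := by
          intro g
          by_contra hg
          have hg' : ext (r y) g = true := by simpa using hg
          obtain ⟨v, hv⟩ := ext_true _ _ hg'
          rw [← hv, ext_apply, hy0] at hg'
          exact absurd hg' (by simp)
        rw [h5]
        show false = r y (1⁻¹ * t)
        rw [hy0]

theorem K2_subshift {T : Γ → F2 → Prop} (f : Γ → P) (hf : f ∈ PP T) : IsSubshift (K2 T) :=
  ⟨⟨_, mem_K2.2 ⟨fun _ => false, f, hf, rfl⟩⟩, isClosed_K2, fun g x hx => shift_mem_K2 g hx⟩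

/-- The abstract criterion. -/
theorem criterion {T : Γ → F2 → Prop} {c d : Γ} (hc : T c⁻¹ (FreeGroup.of 0)⁻¹)
    (hd : T d⁻¹ (FreeGroup.of 1)⁻¹) (ι : F2 →* Γ) (hι : Function.Injective ι)
    (f : Γ → P) (hf : f ∈ PP T) (hfN : ∀ v g, f (ι v * g) = f g)
    (hf1 : f 1 = (false, fun _ => false)) :
    ∃ K : Set (Γ → Bool), IsSubshift K ∧ CompressibleOn K ∧ UniversalOn.{u} K :=
  ⟨K2 T, K2_subshift f hf, K2_compressible hc hd, K2_universal hc hd ι hι f hf hfN hf1⟩

/-- If `N` is a normal subgroup of `Γ` which contains a free group of rank two, and `Γ ⧸ N`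
contains a free group of rank two, then `Γ` has a compressible orbit-universal subshift. -/
theorem extension {N : Subgroup Γ} [N.Normal] {κ : F2 →* Γ ⧸ N} (hκ : Function.Injective κ)
    (ι : F2 →* Γ) (hι : Function.Injective ι) (hN : ∀ v, ι v ∈ N) :
    ∃ K : Set (Γ → Bool), IsSubshift K ∧ CompressibleOn K ∧ UniversalOn.{u} K := by
  obtain ⟨c, hc⟩ := QuotientGroup.mk_surjective (κ (FreeGroup.of 0))
  obtain ⟨d, hd⟩ := QuotientGroup.mk_surjective (κ (FreeGroup.of 1))
  obtain ⟨f, hf, hfc, hf1⟩ := exists_base (N := N) hκ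
  refine criterion (T := fun (h : Γ) (u : F2) => (h : Γ ⧸ N) = κ u) (c := c) (d := d) ?_ ?_
    ι hι f hf ?_ hf1
  · show ((c⁻¹ : Γ) : Γ ⧸ N) = _
    rw [map_inv, ← hc]
    rfl
  · show ((d⁻¹ : Γ) : Γ ⧸ N) = _
    rw [map_inv, ← hd]
    rfl
  · intro v g
    apply hfc
    rw [QuotientGroup.mk_mul, (QuotientGroup.eq_one_iff _).2 (hN v), one_mul]

/-- The free product of cyclic groups of orders two and three (the modular group). -/
abbrev Mod : Type := PresentedGroup ({FreeGroup.of 0 ^ 2, FreeGroup.of 1 ^ 3} : Set F2)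

/-- The action of the modular group on the second factor. -/
def rhQ : Mod →* (P ≃ₜ P) := PresentedGroup.toGroup (f := ![cP, dP]) (by
  intro r hr
  rcases hr with rfl | rfl
  · rw [map_pow, FreeGroup.lift_apply_of]
    exact cP_sq
  · rw [map_pow, FreeGroup.lift_apply_of]
    exact dP_cube)

theorem rhQ_mk (u : F2) : rhQ (PresentedGroup.mk _ u) = rh u := by
  have h : rhQ.comp (PresentedGroup.mk _) = rh := by
    ext1 i
    fin_cases i
    · show rhQ (PresentedGroup.of 0) = rh (FreeGroup.of 0)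
      rw [rh_0]
      exact PresentedGroup.toGroup.of _
    · show rhQ (PresentedGroup.of 1) = rh (FreeGroup.of 1)
      rw [rh_1]
      exact PresentedGroup.toGroup.of _
  exact DFunLike.congr_fun h u

/-- A subgroup `H` of `Γ` with a homomorphism `θ` onto the modular group, and a free
subgroup of rank two of `Γ` all of whose conjugates meet `H` inside the kernel of `θ`. -/
theorem coinduced {H : Subgroup Γ} {θ : H →* Mod} (hθ : Function.Surjective θ)
    (ι : F2 →* Γ) (hι : Function.Injective ι)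
    (hcon : ∀ (g : Γ) (v : F2) (hm : g⁻¹ * ι v * g ∈ H), θ ⟨g⁻¹ * ι v * g, hm⟩ = 1) :
    ∃ K : Set (Γ → Bool), IsSubshift K ∧ CompressibleOn K ∧ UniversalOn.{u} K := by
  classical
  obtain ⟨c, hc⟩ := hθ (PresentedGroup.mk _ (FreeGroup.of 0))
  obtain ⟨d, hd⟩ := hθ (PresentedGroup.mk _ (FreeGroup.of 1))
  let r : Setoid Γ :=
    { r := fun g g' => ∃ (v : F2) (h : H), g' = ι v * g * h
      iseqv :=
        { refl := fun g => ⟨1, 1, by simp⟩
          symm := by
            rintro g g' ⟨v, h, rfl⟩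
            exact ⟨v⁻¹, h⁻¹, by simp [mul_assoc]⟩
          trans := by
            rintro g g' g'' ⟨v, h, rfl⟩ ⟨v', h', rfl⟩
            exact ⟨v' * v, h * h', by simp [mul_assoc]⟩ } }
  let rep : Γ → Γ := fun g => (Quotient.mk r g).out
  have hrep : ∀ g, ∃ (v : F2) (h : H), g = ι v * rep g * h := fun g =>
    Quotient.exact (Quotient.out_eq (Quotient.mk r g))
  have hrep2 : ∀ g g', r g g' → rep g = rep g' := by
    intro g g' h
    show (Quotient.mk r g).out = (Quotient.mk r g').out
    rw [Quotient.sound h]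
  choose va ha hva using hrep
  have huniq : ∀ (x : Γ) (v v' : F2) (h h' : H), ι v * x * h = ι v' * x * h' → θ h = θ h' := by
    intro x v v' h h' he
    have h1 : x⁻¹ * ι (v'⁻¹ * v) * x = ((h' * h⁻¹ : H) : Γ) := by
      rw [map_mul, map_inv]
      push_cast
      have h2 : ι v * x = ι v' * x * h' * (h : Γ)⁻¹ := by rw [← he, mul_inv_cancel_right]
      rw [mul_assoc, mul_assoc, h2]
      group
    have hm : x⁻¹ * ι (v'⁻¹ * v) * x ∈ H := by
      rw [h1]
      exact (h' * h⁻¹).2
    have h3 := hcon x (v'⁻¹ * v) hm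
    have h4 : (⟨x⁻¹ * ι (v'⁻¹ * v) * x, hm⟩ : H) = h' * h⁻¹ := Subtype.ext h1
    rw [h4, map_mul, map_inv] at h3
    exact (mul_inv_eq_one.1 h3).symm
  have hform : ∀ (g : Γ) (v : F2) (h : H), θ (ha (ι v * g * h)) = θ (ha g) * θ h := by
    intro g v h
    rw [← map_mul]
    have h1 : rep g = rep (ι v * g * h) := hrep2 _ _ ⟨v, h, rfl⟩
    refine huniq (rep g) (va (ι v * g * h)) (v * va g) _ _ ?_
    rw [h1, ← hva (ι v * g * h), ← h1, map_mul]
    have h2 := hva g
    calc ι v * g * h = ι v * (ι (va g) * rep g * ha g) * h := by rw [← h2]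
      _ = _ := by push_cast; group
  let f : Γ → P := fun g => rhQ (θ (ha g))⁻¹ (rhQ (θ (ha 1)) (false, fun _ => false))
  refine criterion (T := fun (h : Γ) (u : F2) => ∃ hm : h ∈ H, θ ⟨h, hm⟩ = PresentedGroup.mk _ u)
    (c := (c : Γ)) (d := (d : Γ)) ⟨inv_mem c.2, ?_⟩ ⟨inv_mem d.2, ?_⟩ ι hι f ?_ ?_ ?_
  · rw [map_inv, ← hc, ← map_inv]
    rfl
  · rw [map_inv, ← hd, ← map_inv]
    rfl
  · rintro g h u ⟨hm, hu⟩
    show rhQ (θ (ha (g * h)))⁻¹ _ = rh u⁻¹ (rhQ (θ (ha g))⁻¹ _)
    have h1 := hform g 1 ⟨h, hm⟩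
    rw [map_one, one_mul] at h1
    rw [h1, hu, mul_inv_rev, map_mul, ← map_inv, rhQ_mk]
    rfl
  · intro v g
    show rhQ (θ (ha (ι v * g)))⁻¹ _ = rhQ (θ (ha g))⁻¹ _
    have h1 := hform g v 1
    rw [map_one, mul_one] at h1
    have h2 : ι v * g * ((1 : H) : Γ) = ι v * g := by simp
    rw [h2] at h1
    rw [h1]
  · show rhQ (θ (ha 1))⁻¹ (rhQ (θ (ha 1)) _) = _
    rw [← Homeomorph.mul_apply, ← map_mul, inv_mul_cancel, map_one]
    rfl

end

section pull

variable {Γ G : Type} [Group Γ] [Group G] (π : Γ →* G)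

/-- The pull-back of a subshift. -/
def pull (K : Set (G → Bool)) : Set (Γ → Bool) := (fun z : G → Bool => z ∘ π) '' K

theorem shift_comp (γ : Γ) (z : G → Bool) : shift γ (z ∘ π) = shift (π γ) z ∘ π := by
  funext g
  show z (π (γ⁻¹ * g)) = z ((π γ)⁻¹ * π g)
  rw [map_mul, map_inv]

theorem pull_main (hπ : Function.Surjective π) {K : Set (G → Bool)} (h1 : IsSubshift K)
    (h2 : CompressibleOn K) (h3 : UniversalOn.{u} K) :
    IsSubshift (pull π K) ∧ CompressibleOn (pull π K) ∧ UniversalOn.{u} (pull π K) := by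
  have hinj : Function.Injective (fun z : G → Bool => z ∘ π) := hπ.injective_comp_right
  have hrel : ∀ z z' : G → Bool, (∃ γ : Γ, z' ∘ π = shift γ (z ∘ π)) ↔
      ∃ g : G, z' = shift g z := by
    intro z z'
    constructor
    · rintro ⟨γ, h⟩
      rw [shift_comp] at h
      exact ⟨π γ, hinj h⟩
    · rintro ⟨g, h⟩
      obtain ⟨γ, rfl⟩ := hπ g
      exact ⟨γ, by rw [shift_comp, h]⟩
  refine ⟨⟨h1.1.image _, ?_, ?_⟩, ?_, ?_⟩
  · exact (h1.2.1.isCompact.image (continuous_pi fun g => continuous_apply (π g))).isClosed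
  · rintro γ _ ⟨z, hz, rfl⟩
    exact ⟨shift (π γ) z, h1.2.2 _ z hz, (shift_comp π γ z).symm⟩
  · obtain ⟨f, hfm, hfi, hfc⟩ := h2
    obtain ⟨σ, hσ⟩ := hπ.hasRightInverse
    have hback : ∀ z : G → Bool, (z ∘ π) ∘ σ = z := fun z => by
      funext g
      exact congrArg z (hσ g)
    have hmem : ∀ z' : pull π K, (z' : Γ → Bool) ∘ σ ∈ K := by
      rintro ⟨_, z, hz, rfl⟩
      show (z ∘ π) ∘ σ ∈ K
      rw [hback]
      exact hz
    let A : pull π K → K := fun z' => ⟨(z' : Γ → Bool) ∘ σ, hmem z'⟩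
    let B : K → pull π K := fun z => ⟨(z : G → Bool) ∘ π, z, z.2, rfl⟩
    have hAB : ∀ z, A (B z) = z := fun z => Subtype.ext (hback _)
    have hBA : ∀ z', B (A z') = z' := by
      rintro ⟨_, z, hz, rfl⟩
      apply Subtype.ext
      show ((z ∘ π) ∘ σ) ∘ π = z ∘ π
      rw [hback]
    have hA : Measurable A := by
      refine Measurable.subtype_mk ?_
      exact measurable_pi_iff.2 fun g => (measurable_pi_apply (σ g)).comp measurable_subtype_coe
    have hB : Measurable B := by
      refine Measurable.subtype_mk ?_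
      exact measurable_pi_iff.2 fun g => (measurable_pi_apply (π g)).comp measurable_subtype_coe
    have hBinj : Function.Injective B := fun z z' h => by rw [← hAB z, ← hAB z', h]
    have hAinj : Function.Injective A := fun z z' h => by rw [← hBA z, ← hBA z', h]
    have hcl : ∀ x : K, B '' {y : K | ∃ g : G, (y : G → Bool) = shift g (x : G → Bool)} =
        {y : pull π K | ∃ γ : Γ, (y : Γ → Bool) = shift γ ((B x : pull π K) : Γ → Bool)} := by
      intro x
      ext y'
      constructor
      · rintro ⟨y, hy, rfl⟩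
        exact (hrel x y).2 hy
      · intro hy
        refine ⟨A y', ?_, hBA y'⟩
        rw [← hBA y'] at hy
        exact (hrel x (A y')).1 hy
    refine ⟨fun z' => B (f (A z')), hB.comp (hfm.comp hA), hBinj.comp (hfi.comp hAinj), ?_⟩
    intro x'
    have h5 := hfc (A x')
    have h6 := hcl (A x')
    rw [hBA] at h6
    rw [← h6, ← image_comp]
    have h7 : (fun z' => B (f (A z'))) ∘ B = B ∘ f := by
      funext z
      show B (f (A (B z))) = B (f z)
      rw [hAB]
    rw [h7, image_comp]
    exact hBinj.image_strictMono h5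
  · intro Y _ _ R hR
    obtain ⟨f, hf, hfr⟩ := h3 Y R hR
    refine ⟨fun y => ⟨((f y : K) : G → Bool) ∘ π, _, (f y).2, rfl⟩, ?_, ?_⟩
    · refine Measurable.subtype_mk ?_
      exact measurable_pi_iff.2 fun g => (measurable_pi_apply (π g)).comp
        (measurable_subtype_coe.comp hf)
    · intro y z
      rw [hfr]
      exact (hrel _ _).symm

end pull

/-- Every group mapping onto the free group of rank two has a compressible orbit-universal
subshift. -/
theorem quotient {Γ : Type} [Group Γ] (π : Γ →* F2) (hπ : Function.Surjective π) :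
    ∃ K : Set (Γ → Bool), IsSubshift K ∧ CompressibleOn K ∧ UniversalOn.{u} K :=
  ⟨pull π K1, pull_main π hπ K1_subshift K1_compressible K1_universal⟩

end Pool.Agent.H139R3.CF
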